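import Pool.Agent.H891R2.RL.Fin

set_option autoImplicit false

/-!
Random labelled oriented graphs with `n` vertices and `m` edges: the number of the sparse ones.
-/

namespace Pool.Agent.Y457.RL

open Finset Pool.Agent.H891R2.RL

/-- The triples (initial vertex, terminal vertex, label) of a compressed labelled oriented graph. -/
def tri (n : ℕ) : Finset (Fin n × Fin n × Fin n) :=
  univ.filter (fun t => t.1 ≠ t.2.1 ∧ t.2.2 ≠ t.1 ∧ t.2.2 ≠ t.2.1)

/-- The labelled oriented graph of a family of triples. -/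
def toLog {n m : ℕ} (f : Fin m → Fin n × Fin n × Fin n) : LOG (Fin n) (Fin m) :=
  ⟨fun e => (f e).1, fun e => (f e).2.1, fun e => (f e).2.2⟩

theorem toLog_inj {n m : ℕ} : Function.Injective (toLog : _ → LOG (Fin n) (Fin m)) := by
  intro f g h
  have h1 : (toLog f).ini = (toLog g).ini := by rw [h]
  have h2 : (toLog f).ter = (toLog g).ter := by rw [h]
  have h3 : (toLog f).lab = (toLog g).lab := by rw [h]
  funext e
  exact Prod.ext (congrFun h1 e) (Prod.ext (congrFun h2 e) (congrFun h3 e))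

theorem toLog_surj {n m : ℕ} : Function.Surjective (toLog : _ → LOG (Fin n) (Fin m)) := by
  intro L
  exact ⟨fun e => (L.ini e, L.ter e, L.lab e), rfl⟩

theorem compressed_iff {n m : ℕ} (f : Fin m → Fin n × Fin n × Fin n) :
    (toLog f).Compressed ↔ ∀ e, f e ∈ tri n := by
  simp only [LOG.Compressed, toLog, tri, Finset.mem_filter, Finset.mem_univ, true_and]

theorem card_tri (n : ℕ) : (tri n).card = n * (n - 1) * (n - 2) := by
  classical
  have h : (tri n).card = ∑ a : Fin n, ∑ b ∈ (univ.erase a : Finset (Fin n)), 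
      (((univ.erase a).erase b : Finset (Fin n))).card := by
    have e1 : tri n = (univ : Finset (Fin n)).biUnion (fun a => (univ.erase a).biUnion (fun b => 
        ((univ.erase a).erase b).image (fun c => (a, b, c)))) := by
      ext ⟨a, b, c⟩
      simp only [tri, Finset.mem_filter, Finset.mem_univ, true_and, Finset.mem_biUnion, 
        Finset.mem_erase, Finset.mem_image, Prod.mk.injEq]
      constructor
      · rintro ⟨h1, h2, h3⟩
        exact ⟨a, b, ⟨fun h => h1 h.symm, trivial⟩, c, ⟨h3, h2, trivial⟩, rfl, rfl, rfl⟩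
      · rintro ⟨a', b', ⟨h1, -⟩, c', ⟨h3, h2, -⟩, rfl, rfl, rfl⟩
        exact ⟨fun h => h1 h.symm, h2, h3⟩
    rw [e1, Finset.card_biUnion]
    · apply Finset.sum_congr rfl
      intro a _
      rw [Finset.card_biUnion]
      · apply Finset.sum_congr rfl
        intro b _
        rw [Finset.card_image_of_injective]
        intro c c' h
        simpa using h
      · intro b _ b' _ hbb
        rw [Function.onFun, Finset.disjoint_left]
        intro t ht ht'
        simp only [Finset.mem_image] at ht ht'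
        obtain ⟨c, -, rfl⟩ := ht
        obtain ⟨c', -, h⟩ := ht'
        simp only [Prod.mk.injEq] at h
        exact hbb h.2.1.symm
    · intro a _ a' _ haa
      rw [Function.onFun, Finset.disjoint_left]
      intro t ht ht'
      simp only [Finset.mem_biUnion, Finset.mem_image] at ht ht'
      obtain ⟨b, -, c, -, rfl⟩ := ht
      obtain ⟨b', -, c', -, h⟩ := ht'
      simp only [Prod.mk.injEq] at h
      exact haa h.1.symm
  rw [h]
  have h2 : ∀ a : Fin n, ∀ b ∈ (univ.erase a : Finset (Fin n)), 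
      (((univ.erase a).erase b : Finset (Fin n))).card = n - 2 := by
    intro a b hb
    rw [Finset.card_erase_of_mem hb, Finset.card_erase_of_mem (Finset.mem_univ _), 
      Finset.card_univ, Fintype.card_fin]
    omega
  rw [Finset.sum_congr rfl (fun a _ => Finset.sum_congr rfl (h2 a))]
  simp only [Finset.sum_const, Finset.card_erase_of_mem (Finset.mem_univ _), Finset.card_univ, 
    Fintype.card_fin, smul_eq_mul]
  ring

theorem tri_lower {n : ℕ} (hn : 3 ≤ n) : (n : ℝ) ^ 3 ≤ 9 / 2 * ((tri n).card : ℝ) := by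
  rw [card_tri]
  have h1 : ((n - 1 : ℕ) : ℝ) = (n : ℝ) - 1 := by rw [Nat.cast_sub (by omega)]; norm_num
  have h2 : ((n - 2 : ℕ) : ℝ) = (n : ℝ) - 2 := by rw [Nat.cast_sub (by omega)]; norm_num
  push_cast
  rw [h1, h2]
  have hn' : (3 : ℝ) ≤ n := by exact_mod_cast hn
  have h3 : (0:ℝ) ≤ (n:ℝ) * ((n - 3) * (7 * n - 6)) := by
    apply mul_nonneg (by linarith)
    apply mul_nonneg (by linarith) (by linarith)
  nlinarith

/-- the compressed families -/
def comp (n m : ℕ) : Finset (Fin m → Fin n × Fin n × Fin n) := Fintype.piFinset (fun _ => tri n)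

theorem card_comp (n m : ℕ) : (comp n m).card = (tri n).card ^ m := by
  unfold comp
  rw [Fintype.card_piFinset, Finset.prod_const, Finset.card_univ, Fintype.card_fin]

/-- the compressed families for which the letters of the set `S` are values of `g` -/
def badSet (n m k : ℕ) (S : Finset (Fin m)) (g : Fin (2 * k - 1) → Fin n) : 
    Finset (Fin m → Fin n × Fin n × Fin n) := 
  Fintype.piFinset (fun e => if e ∈ S then 
    ((univ.image g) ×ˢ ((univ.image g) ×ˢ (univ.image g))) else tri n)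

theorem card_badSet {n m k : ℕ} {S : Finset (Fin m)} (hS : S.card = k) 
    (g : Fin (2 * k - 1) → Fin n) : 
    (badSet n m k S g).card ≤ ((2 * k - 1) ^ 3) ^ k * (tri n).card ^ (m - k) := by
  unfold badSet
  rw [Fintype.card_piFinset]
  have h1 : ∏ e : Fin m, (if e ∈ S then 
      ((univ.image g) ×ˢ ((univ.image g) ×ˢ (univ.image g))) else tri n).card = 
      (∏ e ∈ S, ((univ.image g) ×ˢ ((univ.image g) ×ˢ (univ.image g))).card) * 
      ∏ e ∈ Sᶜ, (tri n).card := by
    rw [← Finset.prod_mul_prod_compl S]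
    congr 1
    · apply Finset.prod_congr rfl
      intro e he
      rw [if_pos he]
    · apply Finset.prod_congr rfl
      intro e he
      rw [if_neg (Finset.mem_compl.1 he)]
  rw [h1, Finset.prod_const, Finset.prod_const, Finset.card_compl, hS, Fintype.card_fin]
  apply Nat.mul_le_mul_right
  apply Nat.pow_le_pow_left
  rw [Finset.card_product, Finset.card_product]
  have h2 : (univ.image g).card ≤ 2 * k - 1 := by
    refine Finset.card_image_le.trans ?_
    rw [Finset.card_univ, Fintype.card_fin]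
  calc (univ.image g).card * ((univ.image g).card * (univ.image g).card) 
      ≤ (2 * k - 1) * ((2 * k - 1) * (2 * k - 1)) := 
        Nat.mul_le_mul h2 (Nat.mul_le_mul h2 h2)
    _ = (2 * k - 1) ^ 3 := by ring

theorem exists_fun {n k : ℕ} (A : Finset (Fin n)) (hA : A.Nonempty) (hk : A.card ≤ k) : 
    ∃ g : Fin k → Fin n, A ⊆ univ.image g := by
  classical
  obtain ⟨a, ha⟩ := hA
  have e := A.equivFin
  refine ⟨fun i => if h : i.1 < A.card then (e.symm ⟨i.1, h⟩).1 else a, ?_⟩
  intro x hx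
  rw [Finset.mem_image]
  have h1 : (e ⟨x, hx⟩).1 < A.card := (e ⟨x, hx⟩).2
  refine ⟨⟨(e ⟨x, hx⟩).1, by omega⟩, Finset.mem_univ _, ?_⟩
  simp only [h1, dif_pos, Fin.eta, Equiv.symm_apply_apply]

theorem mem_badSet {n m : ℕ} (f : Fin m → Fin n × Fin n × Fin n) (hf : f ∈ comp n m) 
    (S : Finset (Fin m)) (hS : ((toLog f).letters S).card < 2 * S.card) : 
    2 ≤ S.card ∧ ∃ g, f ∈ badSet n m S.card S g := by
  classical
  unfold comp at hf
  rw [Fintype.mem_piFinset] at hf
  have hcomp := (compressed_iff f).2 hf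
  have hpos : S.Nonempty := by
    rw [← Finset.card_pos]
    omega
  obtain ⟨e0, he0⟩ := hpos
  have hlt : ∀ e ∈ S, (toLog f).lt e ⊆ (toLog f).letters S := by
    intro e he
    exact Finset.subset_biUnion_of_mem (toLog f).lt he
  have h3 : 3 ≤ ((toLog f).letters S).card := by
    refine le_trans ?_ (Finset.card_le_card (hlt e0 he0))
    obtain ⟨h1, h2, h3⟩ := hcomp e0
    unfold LOG.lt
    rw [Finset.card_insert_of_notMem, Finset.card_pair h3.symm]
    simp only [Finset.mem_insert, Finset.mem_singleton, not_or]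
    exact ⟨h1, h2.symm⟩
  refine ⟨by omega, ?_⟩
  have hne : ((toLog f).letters S).Nonempty := by
    rw [← Finset.card_pos]; omega
  obtain ⟨g, hg⟩ := exists_fun (k := 2 * S.card - 1) _ hne (by omega)
  refine ⟨g, ?_⟩
  unfold badSet
  rw [Fintype.mem_piFinset]
  intro e
  by_cases he : e ∈ S
  · rw [if_pos he]
    have h4 := (hlt e he).trans hg
    unfold LOG.lt toLog at h4
    rw [Finset.mem_product, Finset.mem_product]
    refine ⟨h4 (by simp), h4 (by simp), h4 (by simp)⟩
  · rw [if_neg he]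
    exact hf e

open Classical in
/-- the number of compressed families which are not sparse -/
theorem bad_le {n m : ℕ} (hn : 3 ≤ n) : 
    (((comp n m).filter (fun f => ¬ (toLog f).Sparse 7)).card : ℝ) ≤ 
      10 ^ 28 * (1 + m / n) ^ 7 / n * ((comp n m).card : ℝ) := by
  set I : Finset ℕ := Finset.Icc 2 7 with hI
  have hsub : (comp n m).filter (fun f => ¬ (toLog f).Sparse 7) ⊆ 
      I.biUnion (fun k => (powersetCard k (univ : Finset (Fin m))).biUnion (fun S => 
        (univ : Finset (Fin (2 * k - 1) → Fin n)).biUnion (fun g => badSet n m k S g))) := by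
    intro f hf
    rw [Finset.mem_filter] at hf
    obtain ⟨hf1, hf2⟩ := hf
    unfold LOG.Sparse at hf2
    push Not at hf2
    obtain ⟨S, hS7, hS⟩ := hf2
    obtain ⟨h2, g, hg⟩ := mem_badSet f hf1 S hS
    rw [Finset.mem_biUnion]
    refine ⟨S.card, Finset.mem_Icc.2 ⟨h2, hS7⟩, ?_⟩
    rw [Finset.mem_biUnion]
    refine ⟨S, Finset.mem_powersetCard.2 ⟨Finset.subset_univ _, rfl⟩, ?_⟩
    rw [Finset.mem_biUnion]
    exact ⟨g, Finset.mem_univ _, hg⟩
  have hT := tri_lower hn
  set t : ℝ := ((tri n).card : ℝ) with ht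
  have hn' : (3 : ℝ) ≤ n := by exact_mod_cast hn
  have hn0 : (0 : ℝ) < n := by linarith
  have ht0 : 0 < t := by
    have : (0:ℝ) < (n:ℝ) ^ 3 := by positivity
    linarith
  have hcard : (((comp n m).filter (fun f => ¬ (toLog f).Sparse 7)).card : ℝ) ≤ 
      ∑ k ∈ I, ((m.choose k : ℝ) * ((n : ℝ) ^ (2 * k - 1) * 
        (((2 * k - 1 : ℕ) : ℝ) ^ 3) ^ k * t ^ (m - k))) := by
    have h1 := (Finset.card_le_card hsub).trans Finset.card_biUnion_le
    have h2 : ((((comp n m).filter (fun f => ¬ (toLog f).Sparse 7)).card : ℕ) : ℝ) ≤ 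
      ((∑ k ∈ I, ((powersetCard k (univ : Finset (Fin m))).biUnion (fun S => 
        (univ : Finset (Fin (2 * k - 1) → Fin n)).biUnion (fun g => badSet n m k S g))).card : ℕ) : ℝ) := by
      exact_mod_cast h1
    refine h2.trans ?_
    rw [Nat.cast_sum]
    apply Finset.sum_le_sum
    intro k hk
    have h3 : ((powersetCard k (univ : Finset (Fin m))).biUnion (fun S => 
        (univ : Finset (Fin (2 * k - 1) → Fin n)).biUnion (fun g => badSet n m k S g))).card ≤ 
        m.choose k * (n ^ (2 * k - 1) * (((2 * k - 1) ^ 3) ^ k * (tri n).card ^ (m - k))) := by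
      refine Finset.card_biUnion_le.trans ?_
      have h4 : ∀ S ∈ powersetCard k (univ : Finset (Fin m)), 
          ((univ : Finset (Fin (2 * k - 1) → Fin n)).biUnion (fun g => badSet n m k S g)).card ≤ 
          n ^ (2 * k - 1) * (((2 * k - 1) ^ 3) ^ k * (tri n).card ^ (m - k)) := by
        intro S hS
        rw [Finset.mem_powersetCard] at hS
        refine Finset.card_biUnion_le.trans ?_
        refine (Finset.sum_le_card_nsmul _ _ _ (fun g _ => card_badSet hS.2 g)).trans ?_
        rw [Finset.card_univ, Fintype.card_fun, Fintype.card_fin, Fintype.card_fin, smul_eq_mul]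
      refine (Finset.sum_le_card_nsmul _ _ _ h4).trans ?_
      rw [Finset.card_powersetCard, Finset.card_univ, Fintype.card_fin, smul_eq_mul]
    have h5 : ((((powersetCard k (univ : Finset (Fin m))).biUnion (fun S => 
        (univ : Finset (Fin (2 * k - 1) → Fin n)).biUnion (fun g => badSet n m k S g))).card : ℕ) : ℝ) ≤ 
        ((m.choose k * (n ^ (2 * k - 1) * (((2 * k - 1) ^ 3) ^ k * (tri n).card ^ (m - k))) : ℕ) : ℝ) := by
      exact_mod_cast h3
    refine h5.trans (le_of_eq ?_)
    push_cast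
    rw [ht]
    ring
  refine hcard.trans ?_
  rw [card_comp]
  push_cast
  rw [← ht]
  have hterm : ∀ k ∈ I, ((m.choose k : ℝ) * ((n : ℝ) ^ (2 * k - 1) * 
        (((2 * k - 1 : ℕ) : ℝ) ^ 3) ^ k * t ^ (m - k))) ≤ 
        ((9 / 2 : ℝ) ^ k * (((2 * k - 1 : ℕ) : ℝ) ^ 3) ^ k) * ((1 + m / n) ^ 7 / n * t ^ m) := by
    intro k hk
    rw [hI, Finset.mem_Icc] at hk
    by_cases hkm : k ≤ m
    · have hc : (m.choose k : ℝ) ≤ (m : ℝ) ^ k := by
        exact_mod_cast Nat.choose_le_pow m k
      have hq : (m : ℝ) ^ k * ((n : ℝ) ^ (2 * k - 1) * (((2 * k - 1 : ℕ) : ℝ) ^ 3) ^ k * t ^ (m - k)) ≤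
          ((9 / 2 : ℝ) ^ k * (((2 * k - 1 : ℕ) : ℝ) ^ 3) ^ k) * ((m / n : ℝ) ^ k / n * t ^ m) := by
        have e1 : t ^ m = t ^ (m - k) * t ^ k := by
          rw [← pow_add]
          congr 1
          omega
        have e2 : (n : ℝ) ^ (2 * k - 1) * n ^ (k + 1) = (n ^ 3) ^ k := by
          rw [← pow_mul, ← pow_add]
          congr 1
          omega
        have e3 : ((n:ℝ) ^ 3) ^ k ≤ (9 / 2 * t) ^ k := 
          pow_le_pow_left₀ (by positivity) hT k
        have e4 : (m : ℝ) ^ k * ((n : ℝ) ^ (2 * k - 1) * (((2 * k - 1 : ℕ) : ℝ) ^ 3) ^ k * t ^ (m - k)) = 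
            ((m : ℝ) ^ k / n ^ (k + 1)) * ((((2 * k - 1 : ℕ) : ℝ) ^ 3) ^ k * t ^ (m - k)) * 
              (n ^ 3) ^ k := by
          rw [← e2]
          field_simp
        have e5 : ((9 / 2 : ℝ) ^ k * (((2 * k - 1 : ℕ) : ℝ) ^ 3) ^ k) * ((m / n : ℝ) ^ k / n * t ^ m) = 
            ((m : ℝ) ^ k / n ^ (k + 1)) * ((((2 * k - 1 : ℕ) : ℝ) ^ 3) ^ k * t ^ (m - k)) * 
              (9 / 2 * t) ^ k := by
          rw [e1, div_pow (m : ℝ) (n : ℝ) k, mul_pow (9 / 2 : ℝ) t k, pow_succ (n : ℝ) k]
          field_simp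
        rw [e4, e5]
        apply mul_le_mul_of_nonneg_left e3
        positivity
      refine (mul_le_mul_of_nonneg_right hc (by positivity)).trans (hq.trans ?_)
      apply mul_le_mul_of_nonneg_left _ (by positivity)
      apply mul_le_mul_of_nonneg_right _ (by positivity)
      apply div_le_div_of_nonneg_right _ hn0.le
      have h1 : (0:ℝ) ≤ (m:ℝ) / n := by positivity
      calc ((m:ℝ) / n) ^ k ≤ (1 + (m:ℝ) / n) ^ k := pow_le_pow_left₀ h1 (by linarith) k
        _ ≤ (1 + (m:ℝ) / n) ^ 7 := pow_le_pow_right₀ (by linarith) hk.2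
    · rw [Nat.choose_eq_zero_of_lt (by omega)]
      rw [Nat.cast_zero, zero_mul]
      positivity
  refine (Finset.sum_le_sum hterm).trans ?_
  rw [← Finset.sum_mul]
  have hnum : ∑ k ∈ I, ((9 / 2 : ℝ) ^ k * (((2 * k - 1 : ℕ) : ℝ) ^ 3) ^ k) ≤ 10 ^ 28 := by
    rw [hI]
    have : Finset.Icc 2 7 = ({2, 3, 4, 5, 6, 7} : Finset ℕ) := by decide
    rw [this]
    simp only [Finset.sum_insert (by decide : (2:ℕ) ∉ ({3, 4, 5, 6, 7} : Finset ℕ)), 
      Finset.sum_insert (by decide : (3:ℕ) ∉ ({4, 5, 6, 7} : Finset ℕ)), 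
      Finset.sum_insert (by decide : (4:ℕ) ∉ ({5, 6, 7} : Finset ℕ)), 
      Finset.sum_insert (by decide : (5:ℕ) ∉ ({6, 7} : Finset ℕ)), 
      Finset.sum_insert (by decide : (6:ℕ) ∉ ({7} : Finset ℕ)), Finset.sum_singleton]
    norm_num
  calc (∑ k ∈ I, ((9 / 2 : ℝ) ^ k * (((2 * k - 1 : ℕ) : ℝ) ^ 3) ^ k)) * ((1 + m / n) ^ 7 / n * t ^ m) 
      ≤ 10 ^ 28 * ((1 + m / n) ^ 7 / n * t ^ m) := 
        mul_le_mul_of_nonneg_right hnum (by positivity)
    _ = _ := by ring

end Pool.Agent.Y457.RL
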