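import Pool.Agent.Y457.RL.Twin

set_option autoImplicit false

/-!
The two bounds for random labelled oriented graphs.
-/

namespace Pool.Agent.Y457.RL

open Finset Pool.Agent.H891R2.RL

/-- The labelled oriented graph obtained from `L` by reversing the edges in `o`. -/
def reorient {V E : Type} (L : LOG V E) (o : Set E) [DecidablePred (· ∈ o)] : LOG V E where
  ini e := if e ∈ o then L.ter e else L.ini e
  ter e := if e ∈ o then L.ini e else L.ter e
  lab := L.lab

/-- The sub-graph with the edges in `S`. -/
def sub {V E : Type} (L : LOG V E) (S : Set E) : LOG V S where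
  ini e := L.ini e
  ter e := L.ter e
  lab e := L.lab e

theorem reorient_compressed {V E : Type} (L : LOG V E) (o : Set E) [DecidablePred (· ∈ o)] 
    (h : L.Compressed) : (reorient L o).Compressed := by
  intro e
  obtain ⟨h1, h2, h3⟩ := h e
  by_cases he : e ∈ o
  · simp only [reorient, he, if_true]
    exact ⟨h1.symm, h3, h2⟩
  · simp only [reorient, he, if_false]
    exact ⟨h1, h2, h3⟩

theorem reorient_letters {V E : Type} [DecidableEq V] (L : LOG V E) (o : Set E) 
    [DecidablePred (· ∈ o)] (S : Finset E) : (reorient L o).letters S = L.letters S := by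
  unfold LOG.letters
  apply Finset.biUnion_congr rfl
  intro e _
  by_cases he : e ∈ o
  · simp only [LOG.lt, reorient, he, if_true]
    ext x
    simp only [Finset.mem_insert, Finset.mem_singleton]
    tauto
  · simp only [LOG.lt, reorient, he, if_false]

theorem sub_DR {V E : Type} [DecidableEq V] (L : LOG V E) (hC : L.Compressed) (hS : L.Sparse 7) 
    (o : Set E) [DecidablePred (· ∈ o)] (S : Set E) : DR (fun e : S => (reorient L o).rel e) := by
  have h1 : (fun e : S => (reorient L o).rel e) = (sub (reorient L o) S).rel := rfl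
  rw [h1]
  apply sparse_DR
  · intro e
    exact reorient_compressed L o hC e.1
  · intro T hT
    have h2 : (sub (reorient L o) S).letters T = L.letters (T.map ⟨Subtype.val, Subtype.val_injective⟩) := by
      classical
      rw [← reorient_letters L o]
      unfold LOG.letters
      rw [Finset.map_eq_image, Finset.image_biUnion]
      rfl
    rw [h2]
    have h3 := hS (T.map ⟨Subtype.val, Subtype.val_injective⟩) (by rw [Finset.card_map]; exact hT)
    rwa [Finset.card_map] at h3

theorem comp_eq (n m : ℕ) : {L : LOG (Fin n) (Fin m) | L.Compressed} = 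
    toLog '' ((comp n m : Finset _) : Set (Fin m → Fin n × Fin n × Fin n)) := by
  ext L
  obtain ⟨f, rfl⟩ := toLog_surj L
  rw [Set.mem_ofPred_eq, toLog_inj.mem_set_image, Finset.mem_coe, comp, Fintype.mem_piFinset]
  exact compressed_iff f

theorem comp_ncard (n m : ℕ) : {L : LOG (Fin n) (Fin m) | L.Compressed}.ncard = 
    (n * (n - 1) * (n - 2)) ^ m := by
  rw [comp_eq, Set.ncard_image_of_injective _ toLog_inj, Set.ncard_coe_finset, card_comp, card_tri]

open Classical in
theorem few_bad (n m : ℕ) (hn : 3 ≤ n) :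
    ({L : LOG (Fin n) (Fin m) | L.Compressed ∧ ∃ o S : Set (Fin m), 
      ¬ DR (fun e : S => (reorient L o).rel e)}.ncard : ℝ) ≤
    10 ^ 28 * (1 + m / n) ^ 7 / n * ({L : LOG (Fin n) (Fin m) | L.Compressed}.ncard : ℝ) := by
  have h1 : {L : LOG (Fin n) (Fin m) | L.Compressed ∧ ∃ o S : Set (Fin m), 
      ¬ DR (fun e : S => (reorient L o).rel e)} ⊆ 
      toLog '' (((comp n m).filter (fun f => ¬ (toLog f).Sparse 7) : Finset _) : 
        Set (Fin m → Fin n × Fin n × Fin n)) := by
    rintro L ⟨hC, o, S, hD⟩
    obtain ⟨f, rfl⟩ := toLog_surj L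
    rw [toLog_inj.mem_set_image, Finset.mem_coe, Finset.mem_filter, comp, Fintype.mem_piFinset]
    refine ⟨(compressed_iff f).1 hC, fun hS => hD ?_⟩
    exact sub_DR (toLog f) hC hS o S
  have h2 := Set.ncard_le_ncard h1 ((Finset.finite_toSet _).image _)
  rw [Set.ncard_image_of_injective _ toLog_inj, Set.ncard_coe_finset] at h2
  rw [comp_eq, Set.ncard_image_of_injective _ toLog_inj, Set.ncard_coe_finset]
  refine le_trans ?_ (bad_le hn)
  exact_mod_cast h2

theorem few_good (n m : ℕ) (hn : 3 ≤ n) :
    ({L : LOG (Fin n) (Fin m) | L.Compressed ∧ DR L.rel}.ncard : ℝ) ≤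
    Real.exp (-(m * (m - 1)) / (2 * n ^ 3)) * 
      ({L : LOG (Fin n) (Fin m) | L.Compressed}.ncard : ℝ) := by
  classical
  have h1 : {L : LOG (Fin n) (Fin m) | L.Compressed ∧ DR L.rel} ⊆ 
      toLog '' (((comp n m).filter (fun f => Function.Injective f) : Finset _) : 
        Set (Fin m → Fin n × Fin n × Fin n)) := by
    rintro L ⟨hC, hD⟩
    obtain ⟨f, rfl⟩ := toLog_surj L
    rw [toLog_inj.mem_set_image, Finset.mem_coe, Finset.mem_filter, comp, Fintype.mem_piFinset]
    refine ⟨(compressed_iff f).1 hC, ?_⟩
    intro e e' hee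
    by_contra hne
    refine not_DR_of_twin (toLog f).rel hne ?_ hD
    unfold LOG.rel toLog
    simp only [hee]
  have h2 := Set.ncard_le_ncard h1 ((Finset.finite_toSet _).image _)
  rw [Set.ncard_image_of_injective _ toLog_inj, Set.ncard_coe_finset] at h2
  rw [comp_eq, Set.ncard_image_of_injective _ toLog_inj, Set.ncard_coe_finset, card_comp]
  have hpos : 0 < (tri n).card := by
    rw [card_tri]
    have h3 : 0 < n - 1 := by omega
    have h4 : 0 < n - 2 := by omega
    positivity
  have h5 := inj_count (tri n) m (Finset.card_pos.1 hpos)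
  have h6 : ((Fintype.piFinset (fun _ : Fin m => tri n)).filter (fun f => Function.Injective f)).card = 
      ((comp n m).filter (fun f => Function.Injective f)).card := rfl
  rw [h6] at h5
  have h7 : Real.exp (-(m * (m - 1)) / (2 * (tri n).card)) ≤ Real.exp (-(m * (m - 1)) / (2 * n ^ 3)) := by
    apply Real.exp_le_exp.2
    rw [neg_div, neg_div]
    apply neg_le_neg
    have hm : (0 : ℝ) ≤ m * (m - 1) := by
      rcases Nat.eq_zero_or_pos m with h | h
      · rw [h]; simp
      · have : (1 : ℝ) ≤ m := by exact_mod_cast h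
        exact mul_nonneg (by linarith) (by linarith)
    apply div_le_div_of_nonneg_left hm
    · have : (0:ℝ) < (tri n).card := by exact_mod_cast hpos
      positivity
    · have h8 : (tri n).card ≤ n ^ 3 := by
        rw [card_tri]
        calc n * (n - 1) * (n - 2) ≤ n * n * n := 
              Nat.mul_le_mul (Nat.mul_le_mul le_rfl (Nat.sub_le _ _)) (Nat.sub_le _ _)
          _ = n ^ 3 := by ring
      have h9 : (((tri n).card : ℕ) : ℝ) ≤ (n : ℝ) ^ 3 := by exact_mod_cast h8
      linarith
  calc ({L : LOG (Fin n) (Fin m) | L.Compressed ∧ DR L.rel}.ncard : ℝ) 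
      ≤ (((comp n m).filter (fun f => Function.Injective f)).card : ℝ) := by exact_mod_cast h2
    _ ≤ Real.exp (-(m * (m - 1)) / (2 * (tri n).card)) * ((tri n).card : ℝ) ^ m := h5
    _ ≤ Real.exp (-(m * (m - 1)) / (2 * n ^ 3)) * ((tri n).card : ℝ) ^ m := 
        mul_le_mul_of_nonneg_right h7 (by positivity)
    _ = _ := by push_cast; ring

end Pool.Agent.Y457.RL
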