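import Pool.Agent.Y457.RL.Count

set_option autoImplicit false

/-!
Two relators which are equal give a reduced spherical diagram with two faces.
-/

namespace Pool.Agent.Y457.RL

open Finset Pool.Agent.H891R2.RL

/-- the sphere with two square faces, labelled by the equal relators `e` and `f` -/
def nxtP : Equiv.Perm (Bool × Fin 4) where
  toFun d := (d.1, if d.1 then d.2 + 1 else d.2 - 1)
  invFun d := (d.1, if d.1 then d.2 - 1 else d.2 + 1)
  left_inv := by
    rintro ⟨b, i⟩
    cases b <;> simp
  right_inv := by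
    rintro ⟨b, i⟩
    cases b <;> simp

/-- the same edge in the opposite direction -/
def oppP : Equiv.Perm (Bool × Fin 4) where
  toFun d := (!d.1, d.2)
  invFun d := (!d.1, d.2)
  left_inv := by
    rintro ⟨b, i⟩
    simp
  right_inv := by
    rintro ⟨b, i⟩
    simp

theorem card_quot_of {α β : Type} (r : α → α → Prop) (f : α → β) (hf : Function.Surjective f)
    (h1 : ∀ x y, r x y → f x = f y) (h2 : ∀ x y, f x = f y → Relation.EqvGen r x y) :
    Nat.card (Quot r) = Nat.card β := by
  apply Nat.card_congr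
  refine Equiv.ofBijective (Quot.lift f h1) ⟨?_, ?_⟩
  · intro a b hab
    induction a using Quot.ind with
    | _ a =>
    induction b using Quot.ind with
    | _ b => exact Quot.eqvGen_sound (h2 a b hab)
  · intro b
    obtain ⟨a, ha⟩ := hf b
    exact ⟨Quot.mk _ a, ha⟩

theorem cardV : Nat.card (Quot fun x y : Bool × Fin 4 => y = oppP (nxtP.symm x)) = 4 := by
  rw [card_quot_of (β := Fin 4) _ (fun d => if d.1 then d.2 else d.2 + 1)]
  · simp
  · intro i
    exact ⟨(true, i), by simp⟩
  · rintro ⟨b, i⟩ _ rfl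
    cases b <;> simp [oppP, nxtP]
  · rintro ⟨b, i⟩ ⟨c, j⟩ h
    cases b <;> cases c <;> simp at h <;> subst h
    · exact Relation.EqvGen.refl _
    · apply Relation.EqvGen.rel
      simp [oppP, nxtP]
    · apply Relation.EqvGen.symm
      apply Relation.EqvGen.rel
      simp [oppP, nxtP]
    · exact Relation.EqvGen.refl _

theorem cardE : Nat.card (Quot fun x y : Bool × Fin 4 => y = oppP x) = 4 := by
  rw [card_quot_of (β := Fin 4) _ (fun d => d.2)]
  · simp
  · intro i
    exact ⟨(true, i), by simp⟩
  · rintro ⟨b, i⟩ _ rfl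
    simp [oppP]
  · rintro ⟨b, i⟩ ⟨c, j⟩ h
    simp only at h
    subst h
    cases b <;> cases c
    · exact Relation.EqvGen.refl _
    · apply Relation.EqvGen.rel
      simp [oppP]
    · apply Relation.EqvGen.rel
      simp [oppP]
    · exact Relation.EqvGen.refl _

theorem nxt_gen (b : Bool) (i j : Fin 4) : 
    Relation.EqvGen (fun x y : Bool × Fin 4 => y = nxtP x) (b, i) (b, j) := by
  have h0 : ∀ i : Fin 4, Relation.EqvGen (fun x y : Bool × Fin 4 => y = nxtP x) (b, i) (b, i + 1) := by
    intro i
    cases b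
    · apply Relation.EqvGen.symm
      apply Relation.EqvGen.rel
      simp [nxtP]
    · apply Relation.EqvGen.rel
      simp [nxtP]
  have h1 : ∀ i : Fin 4, Relation.EqvGen (fun x y : Bool × Fin 4 => y = nxtP x) (b, 0) (b, i) := by
    intro i
    have a1 := h0 0
    have a2 := h0 1
    have a3 := h0 2
    fin_cases i
    · exact Relation.EqvGen.refl _
    · exact a1
    · exact a1.trans _ _ _ a2
    · exact (a1.trans _ _ _ a2).trans _ _ _ a3
  exact ((h1 i).symm).trans _ _ _ (h1 j)

theorem cardF : Nat.card (Quot fun x y : Bool × Fin 4 => y = nxtP x) = 2 := by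
  rw [card_quot_of (β := Bool) _ (fun d => d.1)]
  · simp
  · intro b
    exact ⟨(b, 0), rfl⟩
  · rintro ⟨b, i⟩ _ rfl
    simp [nxtP]
  · rintro ⟨b, i⟩ ⟨c, j⟩ h
    simp only at h
    subst h
    exact nxt_gen b i j

theorem conn (d d' : Bool × Fin 4) : 
    Relation.ReflTransGen (fun x y => y = nxtP x ∨ y = oppP x) d d' := by
  have h0 : ∀ i : Fin 4, Relation.ReflTransGen (fun x y => y = nxtP x ∨ y = oppP x) (true, i) (true, i + 1) := by
    intro i
    apply Relation.ReflTransGen.single
    left
    simp [nxtP]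
  have h1 : ∀ i j : Fin 4, Relation.ReflTransGen (fun x y => y = nxtP x ∨ y = oppP x) (true, i) (true, j) := by
    have h2 : ∀ (i k : Fin 4), Relation.ReflTransGen (fun x y => y = nxtP x ∨ y = oppP x) 
        (true, i) (true, i + k) := by
      intro i k
      have a1 := h0 i
      have a2 := h0 (i + 1)
      have a3 := h0 (i + 1 + 1)
      have hk : k = 0 ∨ k = 1 ∨ k = 1 + 1 ∨ k = 1 + (1 + 1) := by
        fin_cases k <;> decide
      rcases hk with rfl | rfl | rfl | rfl
      · rw [add_zero]
      · exact a1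
      · rw [← add_assoc]
        exact a1.trans a2
      · rw [← add_assoc, ← add_assoc]
        exact (a1.trans a2).trans a3
    intro i j
    have := h2 i (j - i)
    simpa using this
  have h3 : ∀ (b : Bool) (i : Fin 4), Relation.ReflTransGen (fun x y => y = nxtP x ∨ y = oppP x) (b, i) (!b, i) := by
    intro b i
    apply Relation.ReflTransGen.single
    right
    simp [oppP]
  obtain ⟨b, i⟩ := d
  obtain ⟨c, j⟩ := d'
  cases b <;> cases c
  · exact ((h3 false i).trans (h1 i j)).trans (h3 true j)
  · exact (h3 false i).trans (h1 i j)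
  · exact (h1 i j).trans (h3 true j)
  · exact h1 i j

/-- a repeated relator gives a reduced spherical diagram -/
theorem not_DR_of_twin {X R : Type} (r : R → Fin 4 → X × Bool) {e f : R} (hef : e ≠ f)
    (h : r e = r f) : ¬ DR r := by
  intro hDR
  refine hDR ⟨Bool × Fin 4, inferInstance, inferInstance, nxtP, oppP, ?_, ?_, conn, ?_, 
    fun d => if d.1 then e else f, fun d => d.2, fun d => d.1, ?_, ?_, ?_, ?_, ?_⟩ ?_
  · rintro ⟨b, i⟩ hh
    simp [oppP] at hh
  · rintro ⟨b, i⟩
    simp [oppP]
  · rw [cardV, cardE, cardF]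
  · rintro ⟨b, i⟩
    cases b
    · simp only [nxtP, Equiv.coe_fn_mk, Prod.mk.injEq, true_and, Bool.false_eq_true, if_false]
      fin_cases i <;> rfl
    · simp only [nxtP, Equiv.coe_fn_mk, Prod.mk.injEq, true_and, if_true]
      fin_cases i <;> rfl
  · rintro ⟨b, i⟩
    simp [nxtP]
  · rintro ⟨b, i⟩
    simp [nxtP]
  · rintro ⟨b, i⟩
    cases b <;> simp [nxtP]
  · rintro ⟨b, i⟩
    cases b <;> simp [oppP, signedLetter, h]
  · rintro ⟨b, i⟩ ⟨hh, -, -⟩
    cases b
    · simp [oppP] at hh
      exact hef hh
    · simp [oppP] at hh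
      exact hef hh.symm

/-- the number of injective functions into a set -/
theorem inj_count {α : Type} [DecidableEq α] (T : Finset α) (m : ℕ) (hT : T.Nonempty) :
    (((Fintype.piFinset (fun _ : Fin m => T)).filter (fun f => Function.Injective f)).card : ℝ) ≤ 
      Real.exp (-(m * (m - 1)) / (2 * T.card)) * (T.card : ℝ) ^ m := by
  classical
  set N := T.card with hN
  have hNpos : 0 < N := Finset.card_pos.2 hT
  have h1 : ((Fintype.piFinset (fun _ : Fin m => T)).filter (fun f => Function.Injective f)).card ≤ 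
      N.descFactorial m := by
    have h2 : Fintype.card (Fin m ↪ T) = N.descFactorial m := by
      rw [Fintype.card_embedding_eq, Fintype.card_fin, Fintype.card_coe]
    rw [← h2, ← Finset.card_univ]
    refine Finset.card_le_card_of_surjOn (fun g : Fin m ↪ T => (fun i => (g i).1)) ?_
    intro f hf
    rw [Finset.mem_coe, Finset.mem_filter, Fintype.mem_piFinset] at hf
    obtain ⟨hf1, hf2⟩ := hf
    refine ⟨⟨fun i => ⟨f i, hf1 i⟩, ?_⟩, by simp, rfl⟩
    intro i j hij
    exact hf2 (by simpa using hij)
  have h3 : ∀ m : ℕ, (N.descFactorial m : ℝ) ≤ Real.exp (-(m * (m - 1)) / (2 * N)) * (N : ℝ) ^ m := by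
    intro m
    induction m with
    | zero => simp
    | succ m ih =>
      rw [Nat.descFactorial_succ]
      have hN0 : (0:ℝ) < N := by exact_mod_cast hNpos
      have e1 : ((N - m : ℕ) : ℝ) ≤ Real.exp (-(m : ℝ) / N) * N := by
        have e2 : 1 + (-(m : ℝ) / N) ≤ Real.exp (-(m : ℝ) / N) := by
          have := Real.add_one_le_exp (-(m : ℝ) / N)
          linarith
        by_cases hm : m ≤ N
        · rw [Nat.cast_sub hm]
          have e3 : ((N : ℝ) - m) = (1 + (-(m : ℝ) / N)) * N := by field_simp; ring
          rw [e3]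
          exact mul_le_mul_of_nonneg_right e2 hN0.le
        · rw [Nat.sub_eq_zero_of_le (by omega)]
          rw [Nat.cast_zero]
          positivity
      push_cast
      calc ((N - m : ℕ) : ℝ) * (N.descFactorial m : ℝ) 
          ≤ (Real.exp (-(m : ℝ) / N) * N) * (Real.exp (-(m * (m - 1)) / (2 * N)) * (N : ℝ) ^ m) := by
            apply mul_le_mul e1 ih (by positivity) (by positivity)
        _ = (Real.exp (-(m : ℝ) / N) * Real.exp (-(m * (m - 1)) / (2 * N))) * (N : ℝ) ^ (m + 1) := by ring
        _ = Real.exp (-((m + 1) * ((m + 1 : ℝ) - 1)) / (2 * N)) * (N : ℝ) ^ (m + 1) := by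
            rw [← Real.exp_add]
            congr 2
            field_simp
            ring
  refine le_trans ?_ (h3 m)
  exact_mod_cast h1

end Pool.Agent.Y457.RL
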